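import Pool.Agent.W622.BK.Stm

/-! # BK-EXS: the step for exactness -/

set_option autoImplicit false

namespace Pool.Agent.W160.BK

open Module Pool.Agent.W622.BK

universe u

section
variable {k : Type u} [Field k] {E : Type u} [AddCommGroup E] [Module k E]

/-- contraction with `a` -/
noncomputable def K {n : ℕ} (a : E) : G k E (n + 1) →ₗ[k] G k E n :=
  (cur k E).toLinearMap.flip a

theorem K_apply {n : ℕ} (a : E) (w : G k E (n + 1)) : K a w = cur k E w a := rfl

theorem K_add {n : ℕ} (a b : E) : (K (a + b) : G k E (n + 1) →ₗ[k] G k E n) = K a + K b :=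
  map_add _ _ _

theorem K_smul {n : ℕ} (c : k) (a : E) : (K (c • a) : G k E (n + 1) →ₗ[k] G k E n) = c • K a :=
  map_smul _ _ _

theorem D_succ {R : Submodule k (E →ₗ[k] E →ₗ[k] k)} {X : Submodule k (E →ₗ[k] k)} {n : ℕ}
    {w : G k E (n + 2)} (hw : w ∈ D R X (n + 2)) :
    (∀ e, cur k E w e ∈ D R X (n + 1)) ∧ InR R (cc k E w) := hw

/-- the form `(a, e, e') ↦ φ(cur (cur (S e') a) e)` -/
noncomputable def fS {n : ℕ} (S : E →ₗ[k] G k E (n + 2)) (φ : G k E n →ₗ[k] k) :
    E →ₗ[k] E →ₗ[k] E →ₗ[k] k where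
  toFun e' := (cc k E (S e')).compr₂ φ
  map_add' x y := by
    ext a e
    simp only [cc, LinearMap.compr₂_apply, LinearMap.comp_apply, LinearMap.add_apply,
      LinearEquiv.coe_coe, map_add]
  map_smul' c x := by
    ext a e
    simp only [cc, LinearMap.compr₂_apply, LinearMap.comp_apply, LinearMap.smul_apply,
      LinearEquiv.coe_coe, map_smul, RingHom.id_apply]

theorem fS_apply {n : ℕ} (S : E →ₗ[k] G k E (n + 2)) (φ : G k E n →ₗ[k] k) (e' a e : E) :
    fS S φ e' a e = φ (cur k E (cur k E (S e') a) e) := rfl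

theorem aux {n : ℕ} (a b c : G k E n) : a + (-1 : k) • b + (-1 : k) • c = a - b - c := by
  ext v
  simp only [add_apply, smul_apply, sub_apply,
    smul_eq_mul]
  ring

/-- the bilinear map `(e, e') ↦ cur (S e') e` -/
noncomputable def Qs {n : ℕ} (S : E →ₗ[k] G k E (n + 2)) : E →ₗ[k] E →ₗ[k] G k E (n + 1) :=
  ((cur k E).toLinearMap ∘ₗ S).flip

/-- the form `(a, e, e') ↦ - φ(cur (P e e') a)` -/
noncomputable def fP {n : ℕ} (P : E →ₗ[k] E →ₗ[k] G k E (n + 1)) (φ : G k E n →ₗ[k] k) :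
    E →ₗ[k] E →ₗ[k] E →ₗ[k] k where
  toFun a := P.compr₂ (-(φ ∘ₗ K a))
  map_add' x y := by
    ext a e
    simp only [LinearMap.compr₂_apply, LinearMap.comp_apply, LinearMap.add_apply,
      LinearMap.neg_apply, K_add, map_add]
    ring
  map_smul' c x := by
    ext a e
    simp only [LinearMap.compr₂_apply, LinearMap.comp_apply, LinearMap.smul_apply,
      LinearMap.neg_apply, K_smul, map_smul, RingHom.id_apply, smul_neg]

theorem fP_apply {n : ℕ} (P : E →ₗ[k] E →ₗ[k] G k E (n + 1)) (φ : G k E n →ₗ[k] k) (a e e' : E) :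
    fP P φ a e e' = - φ (cur k E (P e e') a) := rfl

/-- the correction term for the condition `Cyc` -/
theorem cyc_corr (hALT : S_ALT.{u}) {R : Submodule k (E →ₗ[k] E →ₗ[k] k)}
    {X : Submodule k (E →ₗ[k] k)} {n : ℕ} (hR : Alt R)
    (T : E →ₗ[k] E →ₗ[k] G k E (n + 1)) (S : E →ₗ[k] G k E (n + 2))
    (P : E →ₗ[k] E →ₗ[k] G k E (n + 1)) (hS : ∀ e, S e ∈ D R X (n + 2)) (hP : InR R P)
    (φ : G k E n →ₗ[k] k) (h : Cyc R (fun a e e' => φ (cur k E (T e e') a))) :
    Cyc R (fun a e e' => φ (cur k E (T e e' - cur k E (S e') e - P e e') a)) := by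
  obtain ⟨τ₁, τ₂, h1, h2, h3⟩ := h
  refine ⟨τ₁ + LinearMap.lflip.toLinearMap ∘ₗ (fS S φ).flip, τ₂ + fP P φ, fun a e e' => ?_, fun e' => ?_,
    fun a => ?_⟩
  · have h4 : cur k E (cur k E (S e') e) a = - cur k E (cur k E (S e') a) e :=
      (hALT k E R X n (S e') hR (hS e')).2 e a
    have h5 : φ (cur k E (T e e' - cur k E (S e') e - P e e') a) =
        φ (cur k E (T e e') a) + φ (cur k E (cur k E (S e') a) e) - φ (cur k E (P e e') a) := by
      rw [map_sub, map_sub, LinearMap.sub_apply, LinearMap.sub_apply, h4, map_sub, map_sub,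
        map_neg, sub_neg_eq_add]
    have h6 : (τ₁ + LinearMap.lflip.toLinearMap ∘ₗ (fS S φ).flip) a e e' =
        τ₁ a e e' + φ (cur k E (cur k E (S e') a) e) := rfl
    have h7 : (τ₂ + fP P φ) a e e' = τ₂ a e e' + - φ (cur k E (P e e') a) := rfl
    have h8 := h1 a e e'
    simp only at h8
    show φ (cur k E (T e e' - cur k E (S e') e - P e e') a) = _
    rw [h5, h6, h7, h8]
    ring
  · have h4 : (τ₁ + LinearMap.lflip.toLinearMap ∘ₗ (fS S φ).flip).compr₂ (LinearMap.applyₗ e') =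
        τ₁.compr₂ (LinearMap.applyₗ e') + fS S φ e' := by
      ext a e
      rfl
    rw [h4]
    exact R.add_mem (h2 e') ((D_succ (hS e')).2 φ)
  · rw [LinearMap.add_apply]
    exact R.add_mem (h3 a) (hP _)

end

theorem t_EXS : S_EXS.{u} := by
  intro hALT hMONO hNH hNKILL hCON hKIL hSEC k _ E _ _ R X u p hR hExN hSur1 hSur2 hExH T hT hC
  -- contraction with `u`
  obtain ⟨S1, P1, hS1, hP1, hP1R, hTu⟩ := hExN (T.compr₂ (K u))
    (fun e e' => hCON hALT k E R X u p (T e e') hR (hT e e')) (fun φ => by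
      have h := hC (-(φ ∘ₗ K u))
      have h2 : (fun a e e' => φ (cur k E ((T.compr₂ (K u)) e e') a)) =
          fun a e e' => (-(φ ∘ₗ K u)) (cur k E (T e e') a) := by
        funext a e e'
        have h3 : cur k E (cur k E (T e e') u) a = - cur k E (cur k E (T e e') a) u :=
          (hALT k E R X p (T e e') hR (hT e e')).2 u a
        rw [LinearMap.compr₂_apply, K_apply, LinearMap.neg_apply, LinearMap.comp_apply, K_apply,
          h3, map_neg]
      rw [h2]
      exact h)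
  obtain ⟨σ1, hσ1⟩ := hSEC k E R X u (p + 1) hSur1
  obtain ⟨σ2, hσ2⟩ := hSEC k E R X u (p + 2) hSur2
  obtain ⟨S', hS'⟩ : ∃ S' : E →ₗ[k] G k E (p + 1 + 2), ∀ e, S' e = - σ2 (S1 e) :=
    ⟨-(σ2 ∘ₗ S1), fun _ => rfl⟩
  obtain ⟨P', hP'⟩ : ∃ P' : E →ₗ[k] E →ₗ[k] G k E (p + 1 + 1), P' = P1.compr₂ σ1 := ⟨_, rfl⟩
  have hP'a : ∀ e e', P' e e' = σ1 (P1 e e') := fun e e' => by rw [hP', LinearMap.compr₂_apply]
  have hS'D : ∀ e, S' e ∈ D R X (p + 3) := fun e => by
    rw [hS' e]
    exact Submodule.neg_mem _ (hσ2 _ (hS1 e)).1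
  have hP'D : ∀ e e', P' e e' ∈ D R X (p + 2) := fun e e' => by
    rw [hP'a]
    exact (hσ1 _ (hP1 e e')).1
  have hP'R : InR R P' := fun φ => by
    have h : P'.compr₂ φ = P1.compr₂ (φ ∘ₗ σ1) := by
      ext e e'
      rw [LinearMap.compr₂_apply, LinearMap.compr₂_apply, LinearMap.comp_apply, hP'a]
    rw [h]
    exact hP1R _
  obtain ⟨T', hT'⟩ : ∃ T' : E →ₗ[k] E →ₗ[k] G k E (p + 1 + 1),
      ∀ e e', T' e e' = T e e' - cur k E (S' e') e - P' e e' :=
    ⟨T + (-1 : k) • Qs (n := p + 1) S' + (-1 : k) • P', fun e e' => by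
      have h1 : (T + (-1 : k) • Qs (n := p + 1) S' + (-1 : k) • P') e e' =
        T e e' + (-1 : k) • (cur k E (S' e') e) + (-1 : k) • (P' e e') := rfl
      rw [h1]
      exact aux _ _ _⟩
  have hT'X : ∀ e e', T' e e' ∈ D R X (p + 2) := fun e e' => by
    rw [hT']
    exact Submodule.sub_mem _ (Submodule.sub_mem _ (hT e e') ((D_succ (hS'D e')).1 e))
      (hP'D e e')
  have hT'u : ∀ e e', cur k E (T' e e') u = 0 := fun e e' => by
    have h1 : cur k E (cur k E (S' e') e) u = - cur k E (cur k E (S' e') u) e :=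
      (hALT k E R X (p + 1) (S' e') hR (hS'D e')).2 e u
    have h2 : cur k E (S' e') u = - S1 e' := by
      rw [hS', map_neg, LinearMap.neg_apply, (hσ2 _ (hS1 e')).2]
    have h3 : cur k E (P' e e') u = P1 e e' := by
      rw [hP'a, (hσ1 _ (hP1 e e')).2]
    have h4 : cur k E (T e e') u = cur k E (S1 e') e + P1 e e' := hTu e e'
    rw [hT', map_sub, map_sub, LinearMap.sub_apply, LinearMap.sub_apply, h1, h2, h3, h4, map_neg,
      LinearMap.neg_apply, neg_neg, add_sub_cancel_left, sub_self]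
  have hT'H : ∀ e e', T' e e' ∈ D R (Hh X u) (p + 2) := fun e e' =>
    hKIL hALT k E R X u (p + 1) (T' e e') hR (hT'X e e') (hT'u e e')
  obtain ⟨S2, P2, hS2, hP2, hP2R, hTT⟩ := hExH T' hT'H (fun φ => by
    have h := cyc_corr hALT hR T S' P' hS'D hP'R φ (hC φ)
    have h2 : (fun a e e' => φ (cur k E (T' e e') a)) =
        fun a e e' => φ (cur k E (T e e' - cur k E (S' e') e - P' e e') a) := by
      funext a e e'
      rw [hT']
    rw [h2]
    exact h)
  have hHX : Hh X u ≤ X := inf_le_left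
  refine ⟨S' + S2, P' + P2, fun e => ?_, fun e e' => ?_, fun φ => ?_, fun e e' => ?_⟩
  · exact Submodule.add_mem _ (hS'D e) (hMONO k E R (Hh X u) X (p + 3) hHX (hS2 e))
  · exact Submodule.add_mem _ (hP'D e e') (hMONO k E R (Hh X u) X (p + 2) hHX (hP2 e e'))
  · have h : (P' + P2).compr₂ φ = P'.compr₂ φ + P2.compr₂ φ := by
      ext e e'
      simp only [LinearMap.compr₂_apply, LinearMap.add_apply, map_add]
    rw [h]
    exact R.add_mem (hP'R φ) (hP2R φ)
  · have h1 : T e e' = T' e e' + cur k E (S' e') e + P' e e' := by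
      rw [hT']
      abel
    rw [h1, hTT, LinearMap.add_apply, LinearMap.add_apply, LinearMap.add_apply, map_add,
      LinearMap.add_apply]
    abel

end Pool.Agent.W160.BK
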